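import Pool.Agent.Helper55.SCH.Goals

set_option autoImplicit false

/-!
# MP_c13f7d_co, packet SCH-COUNT: the number of monochromatic pairs as a quadratic form
-/

namespace Pool.Agent.Helper35.SCH

open Finset Pool.Agent.Helper55.SCH

theorem Ssucc (s : ℕ → ℝ) (k : ℕ) : S s (k + 1) = S s k + s (k + 1) := by
  unfold S
  rw [Finset.sum_Icc_succ_top (by omega)]

theorem Szero (s : ℕ → ℝ) : S s 0 = 0 := by
  unfold S
  simp

theorem S_stab (s : ℕ → ℝ) (N k : ℕ) (h : ∀ x, x ∉ Icc 1 N → s x = 0) (hk : N ≤ k) :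
    S s k = S s N := by
  induction k, hk using Nat.le_induction with
  | base => rfl
  | succ k hk ih =>
    rw [Ssucc, ih, h (k + 1) (by rw [Finset.mem_Icc]; omega), add_zero]

/-- inner sums without shift -/
theorem inner1 (f : ℕ → ℝ) (N x : ℕ) :
    ∑ y ∈ Icc 1 N, (if x + y ≤ N then f y else 0) = S f (N - x) := by
  rw [← Finset.sum_filter]
  unfold S
  refine Finset.sum_congr ?_ (fun _ _ => rfl)
  ext y
  simp only [Finset.mem_filter, Finset.mem_Icc]
  omega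

theorem shift (f : ℕ → ℝ) (x k : ℕ) :
    ∑ y ∈ Icc 1 k, f (x + y) = S f (x + k) - S f x := by
  induction k with
  | zero => simp
  | succ k ih =>
    rw [Finset.sum_Icc_succ_top (by omega), ih, ← add_assoc, Ssucc]
    ring

/-- inner sums with shift -/
theorem inner2 (f : ℕ → ℝ) (N x : ℕ) (h : ∀ x, x ∉ Icc 1 N → f x = 0) :
    ∑ y ∈ Icc 1 N, (if x + y ≤ N then f (x + y) else 0) = S f N - S f x := by
  rw [inner1 (fun y => f (x + y)) N x]
  unfold S
  have := shift f x (N - x)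
  unfold S at this
  rw [this]
  by_cases hx : x ≤ N
  · have e : x + (N - x) = N := by omega
    rw [e]
  · have e : x + (N - x) = x := by omega
    rw [e]
    have h2 := S_stab f N x h (by omega)
    unfold S at h2
    rw [h2]

/-- dropping the condition -/
theorem inner3 (f : ℕ → ℝ) (N c v : ℕ) (h : ∀ x, x ∉ Icc 1 N → f x = 0) :
    ∑ x ∈ Icc 1 c, (if x + v ≤ N then f (x + v) else 0) = S f (v + c) - S f v := by
  rw [← shift f v c]
  refine Finset.sum_congr rfl (fun x _ => ?_)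
  rw [add_comm v x]
  by_cases hx : x + v ≤ N
  · rw [if_pos hx]
  · rw [if_neg hx, h _ (by rw [Finset.mem_Icc]; omega)]

theorem abel (f : ℕ → ℝ) (N : ℕ) :
    ∑ x ∈ Icc 1 N, f x * S f x = (S f N ^ 2 + ∑ x ∈ Icc 1 N, f x ^ 2) / 2 := by
  induction N with
  | zero => simp [Szero]
  | succ N ih =>
    rw [Finset.sum_Icc_succ_top (by omega), Finset.sum_Icc_succ_top (by omega), ih, Ssucc]
    ring

/-- the backward window -/
theorem back (f : ℕ → ℝ) (h0 : f 0 = 0) (v c : ℕ) :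
    ∑ x ∈ Icc 1 c, f (v - x) = S f (v - 1) - S f (v - 1 - c) := by
  induction c with
  | zero => simp
  | succ c ih =>
    rw [Finset.sum_Icc_succ_top (by omega), ih]
    by_cases hv : v - 1 - c = 0
    · have e1 : v - (c + 1) = 0 := by omega
      have e2 : v - 1 - (c + 1) = 0 := by omega
      rw [e1, e2, hv, h0]
      ring
    · obtain ⟨k, hk⟩ : ∃ k, v - 1 - c = k + 1 := ⟨v - 1 - c - 1, by omega⟩
      have e1 : v - (c + 1) = k + 1 := by omega
      have e2 : v - 1 - (c + 1) = k := by omega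
      rw [e1, e2, hk, Ssucc]
      ring

/-- one shift, symmetric -/
theorem symm1 (f : ℕ → ℝ) (N x : ℕ) (h : ∀ x, x ∉ Icc 1 N → f x = 0) :
    ∑ v ∈ Icc 1 N, f v * f (v + x) = ∑ w ∈ Icc 1 N, f w * f (w - x) := by
  have h0 : f 0 = 0 := h 0 (by simp)
  have hR := inner2 (fun w => f w * f (w - x)) N x
    (fun y hy => by simp only [h y hy, zero_mul])
  have hz : S (fun w => f w * f (w - x)) x = 0 := by
    unfold S
    refine Finset.sum_eq_zero (fun w hw => ?_)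
    have : w - x = 0 := by have := (Finset.mem_Icc.mp hw).2; omega
    simp only [this, h0, mul_zero]
  rw [hz, sub_zero] at hR
  have hS : S (fun w => f w * f (w - x)) N = ∑ w ∈ Icc 1 N, f w * f (w - x) := rfl
  rw [← hS, ← hR]
  refine Finset.sum_congr rfl (fun v _ => ?_)
  have e : x + v - x = v := by omega
  by_cases hv : x + v ≤ N
  · rw [if_pos hv, e, add_comm v x]
    ring
  · rw [if_neg hv, add_comm v x, h (x + v) (by rw [Finset.mem_Icc]; omega), mul_zero]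

theorem symm2 (f : ℕ → ℝ) (N c : ℕ) (h : ∀ x, x ∉ Icc 1 N → f x = 0) :
    ∑ v ∈ Icc 1 N, f v * (S f (v + c) - S f v)
      = ∑ v ∈ Icc 1 N, f v * (S f (v - 1) - S f (v - 1 - c)) := by
  have h0 : f 0 = 0 := h 0 (by simp)
  have e1 : ∀ v ∈ Icc 1 N, f v * (S f (v + c) - S f v) = ∑ x ∈ Icc 1 c, f v * f (v + x) := by
    intro v _
    rw [← shift f v c, Finset.mul_sum]
  have e2 : ∀ v ∈ Icc 1 N, f v * (S f (v - 1) - S f (v - 1 - c))
      = ∑ x ∈ Icc 1 c, f v * f (v - x) := by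
    intro v _
    rw [← back f h0 v c, Finset.mul_sum]
  rw [Finset.sum_congr rfl e1, Finset.sum_congr rfl e2, Finset.sum_comm,
    Finset.sum_comm (s := Icc 1 N) (t := Icc 1 c)]
  exact Finset.sum_congr rfl (fun x _ => symm1 f N x h)

theorem window (f : ℕ → ℝ) (N c : ℕ) (h : ∀ x, x ∉ Icc 1 N → f x = 0) :
    ∑ v ∈ Icc 1 N, f v * (S f (v + c) - S f v)
      = (∑ v ∈ Icc 1 N, f v * (S f (v + c) - S f (v - 1 - c)) - ∑ v ∈ Icc 1 N, f v ^ 2) / 2 := by
  have key : ∑ v ∈ Icc 1 N, f v * (S f (v + c) - S f (v - 1 - c))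
      = ∑ v ∈ Icc 1 N, f v * (S f (v + c) - S f v)
        + ∑ v ∈ Icc 1 N, f v * (S f (v - 1) - S f (v - 1 - c)) + ∑ v ∈ Icc 1 N, f v ^ 2 := by
    rw [← Finset.sum_add_distrib, ← Finset.sum_add_distrib]
    refine Finset.sum_congr rfl (fun v hv => ?_)
    obtain ⟨k, rfl⟩ : ∃ k, v = k + 1 := ⟨v - 1, by have := (Finset.mem_Icc.mp hv).1; omega⟩
    have e : k + 1 - 1 = k := by omega
    rw [e, Ssucc f k]
    ring
  rw [key, ← symm2 f N c h]
  ring

theorem sg_out (N : ℕ) (s : ℕ → Bool) (x : ℕ) (hx : x ∉ Icc 1 N) : sg N s x = 0 := by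
  unfold sg
  rw [if_neg hx]

theorem sg_in (N : ℕ) (s : ℕ → Bool) (x : ℕ) (hx : x ∈ Icc 1 N) :
    sg N s x = if s x then 1 else -1 := by
  unfold sg
  rw [if_pos hx]

theorem sg_sq (N : ℕ) (s : ℕ → Bool) : ∑ x ∈ Icc 1 N, sg N s x ^ 2 = N := by
  have : ∀ x ∈ Icc 1 N, sg N s x ^ 2 = 1 := by
    intro x hx
    rw [sg_in N s x hx]
    split_ifs <;> norm_num
  rw [Finset.sum_congr rfl this]
  simp

/-- the indicator of equality of three signs -/
theorem tri (a b c : Bool) :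
    (if a = b ∧ b = c then (1 : ℝ) else 0) =
      (1 + (if a then 1 else -1) * (if b then 1 else -1)
        + (if b then 1 else -1) * (if c then 1 else -1)
        + (if a then 1 else -1) * (if c then 1 else -1)) / 4 := by
  cases a <;> cases b <;> cases c <;> norm_num

theorem card_real (c u : ℕ) (P : ℕ × ℕ → Prop) [DecidablePred P] :
    ((((Icc 1 c ×ˢ Icc 1 u).filter P).card : ℕ) : ℝ)
      = ∑ x ∈ Icc 1 c, ∑ y ∈ Icc 1 u, (if P (x, y) then (1 : ℝ) else 0) := by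
  rw [Finset.card_filter]
  push_cast
  rw [Finset.sum_product]

/-- the number of pairs of the first kind -/
theorem pairs1 (c : ℕ) :
    ∑ x ∈ Icc 1 c, ∑ y ∈ Icc 1 c, (if x + y ≤ c then (1 : ℝ) else 0) = (c : ℝ) * (c - 1) / 2 := by
  have e : ∀ x ∈ Icc 1 c, ∑ y ∈ Icc 1 c, (if x + y ≤ c then (1 : ℝ) else 0)
      = (c : ℝ) - x := by
    intro x hx
    rw [inner1 (fun _ => (1 : ℝ)) c x]
    unfold S
    simp only [Finset.sum_const, Nat.card_Icc, nsmul_eq_mul, mul_one]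
    have := (Finset.mem_Icc.mp hx).2
    rw [Nat.add_sub_cancel, Nat.cast_sub this]
  rw [Finset.sum_congr rfl e, Finset.sum_sub_distrib]
  have h2 : ∀ n : ℕ, ∑ x ∈ Icc 1 n, (x : ℝ) = (n : ℝ) * (n + 1) / 2 := by
    intro n
    induction n with
    | zero => simp
    | succ n ih =>
      rw [Finset.sum_Icc_succ_top (by omega), ih]
      push_cast
      ring
  rw [h2]
  simp only [Finset.sum_const, Nat.card_Icc, nsmul_eq_mul]
  rw [Nat.add_sub_cancel]
  ring

theorem part1 (c : ℕ) (s : ℕ → Bool) :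
    ((((Icc 1 c ×ˢ Icc 1 c).filter
      (fun q : ℕ × ℕ => q.1 + q.2 ≤ c ∧ s q.1 = s q.2 ∧ s q.2 = s (q.1 + q.2))).card : ℕ) : ℝ)
    = ((c : ℝ) * (c - 1) / 2 + ∑ x ∈ Icc 1 c, sg c s x * S (sg c s) (c - x)
        + S (sg c s) c ^ 2 - c) / 4 := by
  set f : ℕ → ℝ := sg c s with hf
  have hout : ∀ x, x ∉ Icc 1 c → f x = 0 := sg_out c s
  rw [card_real]
  have e : ∀ x ∈ Icc 1 c, ∀ y ∈ Icc 1 c,
      (if ((x, y) : ℕ × ℕ).1 + ((x, y) : ℕ × ℕ).2 ≤ c ∧ s ((x, y) : ℕ × ℕ).1 = s ((x, y) : ℕ × ℕ).2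
        ∧ s ((x, y) : ℕ × ℕ).2 = s (((x, y) : ℕ × ℕ).1 + ((x, y) : ℕ × ℕ).2) then (1 : ℝ) else 0)
      = (if x + y ≤ c then (1 : ℝ) else 0) / 4 + f x * (if x + y ≤ c then f y else 0) / 4
        + (if y + x ≤ c then f (y + x) else 0) * f y / 4
        + f x * (if x + y ≤ c then f (x + y) else 0) / 4 := by
    intro x hx y hy
    by_cases hxy : x + y ≤ c
    · have hyx : y + x ≤ c := by omega
      have hm : x + y ∈ Icc 1 c := by
        rw [Finset.mem_Icc] at hx hy ⊢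
        omega
      simp only [hxy, hyx, true_and, if_true]
      rw [tri, add_comm y x, hf, sg_in c s x hx, sg_in c s y hy, sg_in c s (x + y) hm]
      ring
    · have hyx : ¬ y + x ≤ c := by omega
      simp only [hxy, hyx, false_and, if_false]
      ring
  rw [Finset.sum_congr rfl (fun x hx => Finset.sum_congr rfl (e x hx))]
  simp only [Finset.sum_add_distrib, ← Finset.sum_div, ← Finset.mul_sum]
  rw [pairs1]
  have i1 : ∑ x ∈ Icc 1 c, f x * ∑ y ∈ Icc 1 c, (if x + y ≤ c then f y else 0)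
      = ∑ x ∈ Icc 1 c, f x * S f (c - x) :=
    Finset.sum_congr rfl (fun x _ => by rw [inner1])
  have i3 : ∑ x ∈ Icc 1 c, f x * ∑ y ∈ Icc 1 c, (if x + y ≤ c then f (x + y) else 0)
      = (S f c ^ 2 - c) / 2 := by
    have : ∀ x ∈ Icc 1 c, f x * ∑ y ∈ Icc 1 c, (if x + y ≤ c then f (x + y) else 0)
        = f x * S f c - f x * S f x := fun x _ => by
      rw [inner2 f c x hout]
      ring
    rw [Finset.sum_congr rfl this, Finset.sum_sub_distrib, abel, ← Finset.sum_mul]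
    have hS : ∑ x ∈ Icc 1 c, f x = S f c := rfl
    have hq : ∑ x ∈ Icc 1 c, f x ^ 2 = c := sg_sq c s
    rw [hS, hq]
    ring
  have i2 : ∑ x ∈ Icc 1 c, ∑ y ∈ Icc 1 c, (if y + x ≤ c then f (y + x) else 0) * f y
      = (S f c ^ 2 - c) / 2 := by
    rw [Finset.sum_comm, ← i3]
    refine Finset.sum_congr rfl (fun x _ => ?_)
    rw [Finset.mul_sum]
    exact Finset.sum_congr rfl (fun y _ => mul_comm _ _)
  rw [i1, i2, i3]
  ring

theorem part2 (c u : ℕ) (s r : ℕ → Bool) :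
    ((((Icc 1 c ×ˢ Icc 1 u).filter
      (fun q : ℕ × ℕ => q.1 + q.2 ≤ u ∧ s q.1 = r q.2 ∧ r q.2 = r (q.1 + q.2))).card : ℕ) : ℝ)
    = (NP c u + ∑ x ∈ Icc 1 c, sg c s x * S (sg u r) (u - x)
        + (∑ v ∈ Icc 1 u, sg u r v * (S (sg u r) (v + c) - S (sg u r) (v - 1 - c)) - u) / 2
        + ∑ x ∈ Icc 1 c, sg c s x * (S (sg u r) u - S (sg u r) x)) / 4 := by
  set f : ℕ → ℝ := sg c s with hf
  set g : ℕ → ℝ := sg u r with hg
  have houf : ∀ x, x ∉ Icc 1 c → f x = 0 := sg_out c s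
  have houg : ∀ x, x ∉ Icc 1 u → g x = 0 := sg_out u r
  rw [card_real]
  have e : ∀ x ∈ Icc 1 c, ∀ y ∈ Icc 1 u,
      (if ((x, y) : ℕ × ℕ).1 + ((x, y) : ℕ × ℕ).2 ≤ u ∧ s ((x, y) : ℕ × ℕ).1 = r ((x, y) : ℕ × ℕ).2
        ∧ r ((x, y) : ℕ × ℕ).2 = r (((x, y) : ℕ × ℕ).1 + ((x, y) : ℕ × ℕ).2) then (1 : ℝ) else 0)
      = (if x + y ≤ u then (1 : ℝ) else 0) / 4 + f x * (if x + y ≤ u then g y else 0) / 4
        + (if x + y ≤ u then g (x + y) else 0) * g y / 4
        + f x * (if x + y ≤ u then g (x + y) else 0) / 4 := by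
    intro x hx y hy
    by_cases hxy : x + y ≤ u
    · have hm : x + y ∈ Icc 1 u := by
        rw [Finset.mem_Icc] at hx hy ⊢
        omega
      simp only [hxy, true_and, if_true]
      rw [tri, hf, hg, sg_in c s x hx, sg_in u r y hy, sg_in u r (x + y) hm]
      ring
    · simp only [hxy, false_and, if_false]
      ring
  rw [Finset.sum_congr rfl (fun x hx => Finset.sum_congr rfl (e x hx))]
  simp only [Finset.sum_add_distrib, ← Finset.sum_div, ← Finset.mul_sum]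
  have i0 : ∑ x ∈ Icc 1 c, ∑ y ∈ Icc 1 u, (if x + y ≤ u then (1 : ℝ) else 0) = NP c u := by
    unfold NP
    rw [card_real]
  have i1 : ∑ x ∈ Icc 1 c, f x * ∑ y ∈ Icc 1 u, (if x + y ≤ u then g y else 0)
      = ∑ x ∈ Icc 1 c, f x * S g (u - x) :=
    Finset.sum_congr rfl (fun x _ => by rw [inner1])
  have i3 : ∑ x ∈ Icc 1 c, f x * ∑ y ∈ Icc 1 u, (if x + y ≤ u then g (x + y) else 0)
      = ∑ x ∈ Icc 1 c, f x * (S g u - S g x) :=
    Finset.sum_congr rfl (fun x _ => by rw [inner2 g u x houg])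
  have i2 : ∑ x ∈ Icc 1 c, ∑ y ∈ Icc 1 u, (if x + y ≤ u then g (x + y) else 0) * g y
      = (∑ v ∈ Icc 1 u, g v * (S g (v + c) - S g (v - 1 - c)) - u) / 2 := by
    have hq : ∑ v ∈ Icc 1 u, g v ^ 2 = u := sg_sq u r
    rw [Finset.sum_comm, ← hq, ← window g u c houg]
    refine Finset.sum_congr rfl (fun v _ => ?_)
    rw [← inner3 g u c v houg, Finset.mul_sum]
    exact Finset.sum_congr rfl (fun x _ => mul_comm _ _)
  rw [i0, i1, i2, i3]
  ring

theorem goalCOUNT : G_COUNT := by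
  intro c u s r
  unfold T
  push_cast
  rw [part1, part2]
  unfold Q
  have e : ∑ x ∈ Icc 1 c, sg c s x * (S (sg u r) (u - x) + S (sg u r) u - S (sg u r) x)
      = ∑ x ∈ Icc 1 c, sg c s x * S (sg u r) (u - x)
        + ∑ x ∈ Icc 1 c, sg c s x * (S (sg u r) u - S (sg u r) x) := by
    rw [← Finset.sum_add_distrib]
    exact Finset.sum_congr rfl (fun x _ => by ring)
  rw [e]
  ring

end Pool.Agent.Helper35.SCH
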