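import Pool.Agent.Helper55.SCH.Goals

set_option autoImplicit false

/-!
# MP_c13f7d_co, packet SCH-TELG: telescoping for `g1`
-/

namespace Pool.Agent.Helper35.SCH

open Finset Pool.Agent.Helper55.SCH

theorem S_succ (s : ℕ → ℝ) (k : ℕ) : S s (k + 1) = S s k + s (k + 1) := by
  unfold S
  rw [Finset.sum_Icc_succ_top (by omega)]

theorem crit_s_le (hub : G_HUB) {c u : ℕ} {lam : ℝ} {s r : ℕ → ℝ} (h : Crit1 c u lam s r)
    (x : ℕ) : |s x| ≤ 1 := by
  have hl : 0 < lam := lt_of_lt_of_le one_pos h.lam1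
  by_cases hx : x ∈ Icc 1 c
  · rw [h.hs x hx, abs_neg]
    exact (hub lam hl).1 _
  · rw [h.s0 x hx, abs_zero]
    exact zero_le_one

theorem crit_r_le (hub : G_HUB) {c u : ℕ} {lam : ℝ} {s r : ℕ → ℝ} (h : Crit1 c u lam s r)
    (x : ℕ) : |r x| ≤ 1 := by
  have hl : 0 < lam := lt_of_lt_of_le one_pos h.lam1
  by_cases hx : x ∈ Icc 1 u
  · rw [h.hr x hx, abs_neg]
    exact (hub lam hl).1 _
  · rw [h.r0 x hx, abs_zero]
    exact zero_le_one

theorem g1_step (c u : ℕ) (s r : ℕ → ℝ) (y : ℕ) (hy : y + 1 ≤ c) :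
    g1 c u s r (y + 1) - g1 c u s r y = - (s (c + 1 - (y + 1)) + 2 * r (y + 1)) := by
  unfold g1
  obtain ⟨k, rfl⟩ : ∃ k, c = y + 1 + k := ⟨c - (y + 1), by omega⟩
  have e1 : y + 1 + k - (y + 1) = k := by omega
  have e2 : y + 1 + k - y = k + 1 := by omega
  have e3 : y + 1 + k + 1 - (y + 1) = k + 1 := by omega
  rw [e1, e2, e3, S_succ s k, S_succ r y]
  ring

theorem hub_step (hub : G_HUB) {c u : ℕ} {lam : ℝ} {s r : ℕ → ℝ} (h : Crit1 c u lam s r)
    (y : ℕ) (hy : y + 1 ≤ c) :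
    |Hub lam (g1 c u s r (y + 1)) - Hub lam (g1 c u s r y)
      - s (y + 1) * (s (c + 1 - (y + 1)) + 2 * r (y + 1))| ≤ 5 / lam := by
  have hl : 0 < lam := lt_of_lt_of_le one_pos h.lam1
  have st := g1_step c u s r y hy
  have h4 := (hub lam hl).2.2.2.1 (g1 c u s r (y + 1)) (g1 c u s r y)
  have hs : s (y + 1) = - Phi lam (g1 c u s r (y + 1)) :=
    h.hs (y + 1) (Finset.mem_Icc.mpr ⟨by omega, hy⟩)
  set D : ℝ := s (c + 1 - (y + 1)) + 2 * r (y + 1) with hD
  have hd : g1 c u s r y - g1 c u s r (y + 1) = D := by linarith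
  rw [hd] at h4
  have hP : Phi lam (g1 c u s r (y + 1)) = - s (y + 1) := by linarith
  rw [hP] at h4
  have hs1 := crit_s_le hub h (c + 1 - (y + 1))
  have hr1 := crit_r_le hub h (y + 1)
  have hD3 : |D| ≤ 3 := by
    have : |D| ≤ |s (c + 1 - (y + 1))| + |2 * r (y + 1)| := abs_add_le _ _
    rw [abs_mul, abs_of_pos (by norm_num : (0 : ℝ) < 2)] at this
    linarith
  have hD9 : D ^ 2 ≤ 9 := by
    have := abs_le.mp hD3
    nlinarith [this.1, this.2]
  have hq : D ^ 2 / (2 * lam) ≤ 5 / lam := by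
    rw [div_le_div_iff₀ (by linarith) hl]
    nlinarith
  obtain ⟨h0, h1⟩ := h4
  rw [abs_le]
  constructor
  · linarith
  · have : (0 : ℝ) ≤ 5 / lam := by positivity
    linarith

theorem goalTELG (hub : G_HUB) : G_TELG := by
  intro c u lam s r h a b hab hbc
  have hl : 0 < lam := lt_of_lt_of_le one_pos h.lam1
  induction b, hab using Nat.le_induction with
  | base => simp
  | succ b hab ih =>
    obtain ⟨i1, i2⟩ := ih (by omega)
    have st := g1_step c u s r b hbc
    have hst := hub_step hub h b hbc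
    rw [Finset.sum_Ioc_succ_top hab, Finset.sum_Ioc_succ_top hab]
    constructor
    · linarith
    · have e : Hub lam (g1 c u s r (b + 1)) - Hub lam (g1 c u s r a)
          - (∑ x ∈ Ioc a b, s x * (s (c + 1 - x) + 2 * r x)
            + s (b + 1) * (s (c + 1 - (b + 1)) + 2 * r (b + 1)))
          = (Hub lam (g1 c u s r b) - Hub lam (g1 c u s r a)
            - ∑ x ∈ Ioc a b, s x * (s (c + 1 - x) + 2 * r x))
          + (Hub lam (g1 c u s r (b + 1)) - Hub lam (g1 c u s r b)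
            - s (b + 1) * (s (c + 1 - (b + 1)) + 2 * r (b + 1))) := by ring
      rw [e]
      refine (abs_add_le _ _).trans ?_
      have e2 : 5 * ((b + 1 : ℕ) - a : ℝ) / lam = 5 * (b - a : ℝ) / lam + 5 / lam := by
        push_cast
        field_simp
        ring
      rw [e2]
      exact add_le_add i2 hst

end Pool.Agent.Helper35.SCH
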